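import Mathlib
import Pool.Agent.H.MP_acc8c3_co.Core

set_option autoImplicit false

namespace Pool.Agent.Results.MP_acc8c3_co.Yes

open Pool.Agent.H.MP_acc8c3_co

/-- the graph on the disjoint union of the two classes formed by the edges of colour `i` -/
def colourGraph {A B : Type} {k : ℕ} (χ : A → B → Fin k) (i : Fin k) : SimpleGraph (A ⊕ B) :=
  SimpleGraph.fromRel (fun x y => ∃ u v, x = Sum.inl u ∧ y = Sum.inr v ∧ χ u v = i)

lemma vec_eq {n : ℕ} (i : Col n) {x y : VA n ⊕ VB n}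
    (h : (colourGraph (chi n) i).Reachable x y) : vec n x i = vec n y i := by
  obtain ⟨p⟩ := h
  induction p with
  | nil => rfl
  | cons hadj _ ih =>
    refine Eq.trans ?_ ih
    rw [colourGraph, SimpleGraph.fromRel_adj] at hadj
    rcases hadj.2 with ⟨u, v, rfl, rfl, rfl⟩ | ⟨u, v, rfl, rfl, rfl⟩
    · exact chi_agree n u v
    · exact (chi_agree n u v).symm

lemma main (n m : ℕ) (col : Fin m → Col n)
    (C : ∀ j, (colourGraph (chi n) (col j)).ConnectedComponent)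
    (h : ∀ x, ∃ j, x ∈ (C j).supp) : 2 * n + 2 ≤ m := by
  classical
  have hrep : ∀ j, ∃ x, (colourGraph (chi n) (col j)).connectedComponentMk x = C j :=
    fun j => (C j).exists_rep
  choose r hr using hrep
  let S : Finset (Col n × Val n) := Finset.univ.image (fun j => (col j, vec n (r j) (col j)))
  have key : ∀ x, ∃ c, (c, vec n x c) ∈ S := by
    intro x
    obtain ⟨j, hj⟩ := h x
    rw [SimpleGraph.ConnectedComponent.mem_supp_iff, ← hr j,
      SimpleGraph.ConnectedComponent.eq] at hj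
    exact ⟨col j, Finset.mem_image.2 ⟨j, Finset.mem_univ _, by rw [vec_eq _ hj]⟩⟩
  have h1 := cover_card S (fun a ha => key (Sum.inl (⟨a, ha⟩, 0)))
    (fun b hb => key (Sum.inr (⟨b, hb⟩, 0)))
  have h2 : S.card ≤ m := by simpa using Finset.card_image_le (s := (Finset.univ : Finset (Fin m)))
  omega

theorem result : ∀ k : ℕ, 1 ≤ k → ∃ (A B : Type) (_ : Finite A) (_ : Finite B) (_ : Nonempty A)
    (_ : Nonempty B) (χ : A → B → Fin k),
    (∀ i, (∀ u, ∃ v, χ u v = i) ∧ (∀ v, ∃ u, χ u v = i)) ∧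
    ∀ (m : ℕ) (col : Fin m → Fin k) (C : ∀ j, (colourGraph χ (col j)).ConnectedComponent),
      (∀ x, ∃ j, x ∈ (C j).supp) →
        2 * k ≤ m + 4 ∧ 2 * (k : ℝ) - 4 * Real.sqrt k ≤ m := by
  intro k hk
  have fin : ∀ m : ℕ, 2 * k ≤ m + 4 → 2 * k ≤ m + 4 ∧ 2 * (k : ℝ) - 4 * Real.sqrt k ≤ m := by
    intro m hm
    refine ⟨hm, ?_⟩
    have h1 : (1 : ℝ) ≤ Real.sqrt k := Real.one_le_sqrt.2 (by exact_mod_cast hk)
    have h2 : (2 * k : ℝ) ≤ m + 4 := by exact_mod_cast hm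
    linarith
  by_cases h3 : 3 ≤ k
  · obtain ⟨n, rfl⟩ : ∃ n, k = n + 3 := ⟨k - 3, by omega⟩
    obtain ⟨a, ha, -⟩ := exists_A (n := n) 0 (emb n 0)
    obtain ⟨b, hb, -⟩ := exists_B (n := n) 0 (emb n 0)
    refine ⟨VA n, VB n, inferInstance, inferInstance, ⟨(⟨a, ha⟩, 0)⟩, ⟨(⟨b, hb⟩, 0)⟩, chi n,
      fun i => ⟨span_A n i, span_B n i⟩, fun m col C h => fin m ?_⟩
    have := main n m col C h
    omega
  · obtain ⟨n, rfl⟩ : ∃ n, k = n + 1 := ⟨k - 1, by omega⟩
    refine ⟨Fin (n + 1), Fin (n + 1), inferInstance, inferInstance, ⟨0⟩, ⟨0⟩, fun u v => u + v,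
      fun i => ⟨fun u => ⟨i - u, by simp⟩, fun v => ⟨i - v, by simp⟩⟩,
      fun m col C h => fin m (by omega)⟩

end Pool.Agent.Results.MP_acc8c3_co.Yes
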